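import Pool.Agent.helper54.TS.Spec

set_option autoImplicit false

/-!
# TS, row CTR
-/

open Polynomial Finset

noncomputable section

namespace Pool.Agent.TS

open Pool.Agent.PSA (IsSalem Indep Fac)

theorem CTR (hMCH : MCH_stmt) (hMRN : MRN_stmt) (hSQX : SQX_stmt) (hSQD : SQD_stmt) (hEVP : EVP_stmt)
    (hKTH : KTH_stmt) : CTR_stmt := by
  intro K _ ι β σ k φ w hSF F dg S δ hB hF ε hε
  obtain ⟨τ, h, dl, hτ, hh, hdl, hhδ, J₀, hJ₀⟩ := hMCH K ι β σ k φ w hSF F dg S δ hB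
  obtain ⟨z, hz⟩ : ∃ z, z = (ι β)⁻¹ := ⟨_, rfl⟩
  have hβ1 := hSF.gt
  have hβ0 : 0 < ι β := lt_trans one_pos hβ1
  have hz0 : 0 < z := by rw [hz]; exact inv_pos.2 hβ0
  have hz1 : z < 1 := by rw [hz]; exact inv_lt_one_of_one_lt₀ hβ1
  have hzi : z⁻¹ = ι β := by rw [hz, inv_inv]
  have hrb := hB.rb
  have hd1 := hrb.dl1
  have hd2 := hrb.dl2
  rw [← hz] at hd2 hhδ
  obtain ⟨ε', hε'⟩ : ∃ ε', ε' = min ε (1 - max δ (z * (1 + δ))) := ⟨_, rfl⟩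
  have hε'0 : 0 < ε' := by
    rw [hε']
    apply lt_min hε
    have : max δ (z * (1 + δ)) < 1 := max_lt hd1 hd2
    linarith
  obtain ⟨J, hJ, hJε⟩ : ∃ J, J₀ ≤ J ∧ 2 * z ^ J < ε' := by
    obtain ⟨n, hn⟩ := exists_pow_lt_of_lt_one (show 0 < ε' / 2 by positivity) hz1
    refine ⟨max n J₀, le_max_right _ _, ?_⟩
    have h1 : z ^ max n J₀ ≤ z ^ n := pow_le_pow_of_le_one hz0.le hz1.le (le_max_left _ _)
    linarith
  have hJ1 : 2 * z ^ J < ε := lt_of_lt_of_le hJε (hε' ▸ min_le_left _ _)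
  have hJ2 : max δ (z * (1 + δ)) < 1 - 2 * z ^ J := by
    have : ε' ≤ 1 - max δ (z * (1 + δ)) := hε' ▸ min_le_right _ _
    linarith
  obtain ⟨A, hA⟩ := hJ₀ J hJ
  have hιv : ι (1 + β⁻¹ ^ τ) = 1 + z ^ τ := by rw [map_add, map_one, map_pow, map_inv₀, hz]
  have hzτ0 : 0 < z ^ τ := by positivity
  have hzτ1 : z ^ τ < 1 := pow_lt_one₀ hz0.le hz1 (by omega)
  have hv1 : 1 < ι (1 + β⁻¹ ^ τ) := by rw [hιv]; linarith
  have hv2 : ι (1 + β⁻¹ ^ τ) < 2 := by rw [hιv]; linarith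
  obtain ⟨u, u', eK, c, c', hrun, hu0, hu', N, P, hP, hper⟩ :=
    hMRN K ι β hβ1 F dg S δ hB hF (1 + β⁻¹ ^ τ) h dl J A hv1 hv2 hdl hA
  rw [← hz] at hrun hu'
  obtain ⟨x1, hx1, hx1f⟩ := hEVP K ι β hβ1 (fun n => if c' n = 1 then 1 else 0) N P hP
    (fun n hn => by simp only [(hper n hn).2])
  obtain ⟨x2, hx2, hx2f⟩ := hEVP K ι β hβ1 eK N P hP (fun n hn => (hper n hn).1)
  have himp : (fun m => ι (if c' m = 1 then (1 : K) else 0)) = fun m => imp (c' m) := by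
    funext m
    unfold imp
    split_ifs with hc
    · rw [map_one]
    · rw [map_zero]
  rw [← hz] at hx1 hx2
  have hX : ∀ n, ι (x1 n) = tl z (fun m => imp (c' m)) n := fun n => by rw [hx1 n, himp]
  have hrbz : RB z⁻¹ F δ := by rw [hzi]; exact hrb
  have q1 := hSQX z (ι (1 + β⁻¹ ^ τ)) δ h F u u' (fun n => ι (eK n)) c c' hz0 hz1 hh hhδ hrbz hrun
  obtain ⟨q2, q3, q4⟩ := hSQD z (ι (1 + β⁻¹ ^ τ)) δ h F u u' (fun n => ι (eK n)) c c' hz0 hz1 hh hhδ hv1 hv2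
    hrbz hrun
  have hrange : ∀ (x : ℕ → K), (Set.range x).Finite → (Set.range (fun n => ι (x n))).Finite := by
    intro x hx
    have : Set.range (fun n => ι (x n)) = ι '' Set.range x := by
      rw [← Set.range_comp]
      rfl
    rw [this]
    exact hx.image _
  obtain ⟨r1, r2⟩ := hKTH (ι β) F δ hβ1 hrb τ J (fun n => ι (x1 n)) (fun n => ι (x2 n)) hτ
    (by
      rw [← hz, hX, hx2, ← hu0, ← q2, hιv])
    (fun n => by
      rw [← hz, hX, hX]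
      obtain ⟨p1, -, -, p4, p5⟩ := q1 n
      exact ⟨p1, lt_of_le_of_lt p4 hJ2, p5⟩)
    (fun n => by
      rw [← hz, hx2, hx2]
      obtain ⟨p1, p2, p3⟩ := q4 n
      refine ⟨p1, ?_, p3⟩
      have h1 := lt_of_le_of_lt p2 (hu' n)
      exact lt_of_mul_lt_mul_left h1 (by linarith))
    (by rw [hx2]; exact q3) (hrange x1 hx1f) (hrange x2 hx2f)
  have hκ : ι (1 - (1 + β⁻¹ ^ τ) * β⁻¹ ^ J * x2 0) = 1 - (1 + (ι β)⁻¹ ^ τ) * (ι β)⁻¹ ^ J * ι (x2 0) := by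
    simp only [map_sub, map_mul, map_add, map_one, map_pow, map_inv₀]
  have hθ : ι (1 - β⁻¹ ^ (τ + J) * x2 0) = 1 - (ι β)⁻¹ ^ (τ + J) * ι (x2 0) := by
    simp only [map_sub, map_mul, map_one, map_pow, map_inv₀]
  refine ⟨1 - (1 + β⁻¹ ^ τ) * β⁻¹ ^ J * x2 0, 1 - β⁻¹ ^ (τ + J) * x2 0, ?_, ?_⟩
  · rw [hκ]
    refine lt_trans ?_ r1
    rw [← hz]
    linarith
  · rw [hκ, hθ]
    exact r2

end Pool.Agent.TS
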