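import Pool.Agent.helper54.TS.Spec

set_option autoImplicit false

/-!
# TS, row ETA
-/

open Polynomial Finset

noncomputable section

namespace Pool.Agent.TS

open Pool.Agent.PSA (IsSalem Indep Fac)

theorem ETA (hKRO : PSA.KRO_stmt) : ETA_stmt := by
  intro K _ ι β σ k φ w hSF η hη
  obtain ⟨η', hη'⟩ : ∃ η', η' = min η 1 := ⟨_, rfl⟩
  have hη1 : η' ≤ η := hη' ▸ min_le_left _ _
  have hη2 : η' ≤ 1 := hη' ▸ min_le_right _ _
  have hη0 : 0 < η' := by rw [hη']; exact lt_min hη one_pos
  have hopen : IsOpen {x : Fin k → Circle | ∀ j, ‖1 + (((x j)⁻¹ : Circle) : ℂ)‖ < η'} := by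
    rw [Set.ofPred_forall]
    apply isOpen_iInter_of_finite
    intro j
    apply isOpen_lt _ continuous_const
    have h1 : Continuous (fun x : Fin k → Circle => (x j)⁻¹) := (continuous_apply j).inv
    exact (continuous_const.add (continuous_subtype_val.comp h1)).norm
  have hne : {x : Fin k → Circle | ∀ j, ‖1 + (((x j)⁻¹ : Circle) : ℂ)‖ < η'}.Nonempty := by
    refine ⟨fun _ => Circle.exp Real.pi, ?_⟩
    intro j
    rw [Circle.coe_inv, Circle.coe_exp, Complex.exp_pi_mul_I]
    norm_num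
    exact hη0
  obtain ⟨N, hN⟩ := hKRO k w hSF.ind _ hopen hne
  rcases Nat.eq_zero_or_pos N with h0 | h0
  · refine ⟨1, le_rfl, ?_⟩
    intro j
    exfalso
    have h1 := hN j
    rw [h0] at h1
    simp only [pow_zero, inv_one, Circle.coe_one] at h1
    norm_num at h1
    linarith
  · refine ⟨N, h0, ?_⟩
    intro j
    have h1 := hN j
    simp only at h1
    have h2 : φ j (1 + β⁻¹ ^ N) = 1 + (((w j ^ N)⁻¹ : Circle) : ℂ) := by
      rw [map_add, map_one, map_pow, map_inv₀, hSF.val j, Circle.coe_inv, Circle.coe_pow, inv_pow]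
    rw [h2]
    exact h1.le.trans hη1

end Pool.Agent.TS
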