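import Pool.Agent.helper54.TS.Spec

set_option autoImplicit false

/-!
# TS, row PIG
-/

open Polynomial Finset

noncomputable section

namespace Pool.Agent.TS

open Pool.Agent.PSA (IsSalem Indep Fac)

theorem PIG : PIG_stmt := by
  intro α A T s hA hs hT
  have h1 : ∀ n, T^[n] s ∈ A := by
    intro n
    induction n with
    | zero => exact hs
    | succ n ih =>
      rw [Function.iterate_succ_apply']
      exact hT _ ih
  refine ⟨h1, ?_⟩
  have h2 : ∃ i j : ℕ, i < j ∧ T^[i] s = T^[j] s := by
    by_contra h
    push Not at h
    have hinj : Function.Injective (fun n : ℕ => (⟨T^[n] s, h1 n⟩ : A)) := by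
      intro i j hij
      have h3 : T^[i] s = T^[j] s := congrArg Subtype.val hij
      rcases lt_trichotomy i j with h4 | h4 | h4
      · exact absurd h3 (h i j h4)
      · exact h4
      · exact absurd h3.symm (h j i h4)
    have := hA.to_subtype
    exact not_injective_infinite_finite _ hinj
  obtain ⟨i, j, hij, he⟩ := h2
  refine ⟨i, j - i, by omega, ?_⟩
  intro n hn
  have h3 : n + (j - i) = (n - i) + j := by omega
  have h4 : n = (n - i) + i := by omega
  rw [h3, Function.iterate_add_apply, ← he, ← Function.iterate_add_apply, ← h4]

end Pool.Agent.TS
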