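import Pool.Agent.helper54.TS.Spec

set_option autoImplicit false

/-!
# TS, row STA
-/

open Polynomial Finset

noncomputable section

namespace Pool.Agent.TS

open Pool.Agent.PSA (IsSalem Indep Fac)

/-- the starting values -/
def STA_t {K : Type} [Field K] (β : K) (F : ℝ → ℝ) (dg : ℝ → K) : ℕ → K
  | 0 => 1
  | n + 1 => β * STA_t β F dg n - dg (F^[n] 1)

theorem STA (hNNR : NNR_stmt) : STA_stmt := by
  intro K _ ι β σ k φ w hSF F dg S δ hB v N H C n1 k0 Sg hC
  obtain ⟨-, -, hnn1, -, hnns, -, -, hnnm⟩ := hNNR K k φ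
  refine ⟨STA_t β F dg, ?_⟩
  have hβ0 : 0 < ι β := lt_trans one_pos hSF.gt
  intro n
  induction n with
  | zero =>
    show ι (1 : K) = 1 ∧ ι (1 : K) ≤ 1 ∧ 0 ≤ ι (1 : K) ∧ IsIntegral ℤ ((N : K) * 1) ∧ |σ (1 : K)| ≤ Sg ∧
      nn φ (1 : K) ≤ Real.sqrt k + ((0 : ℕ) : ℝ) * C
    refine ⟨map_one ι, by rw [map_one], by rw [map_one]; norm_num, ?_, ?_, ?_⟩
    · rw [mul_one]
      have h1 : IsIntegral ℤ (algebraMap ℤ K (N : ℤ)) := isIntegral_algebraMap
      simpa using h1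
    · rw [map_one, abs_one]
      exact hC.s1
    · rw [hnn1]
      simp
  | succ n ih =>
    obtain ⟨h1, h2, h3, h4, h5, h6⟩ := ih
    obtain ⟨e, he⟩ : ∃ e, e = dg (F^[n] 1) := ⟨_, rfl⟩
    have hy0 : 0 ≤ F^[n] 1 := by rw [← h1]; exact h3
    have hy1 : F^[n] 1 ≤ 1 := by rw [← h1]; exact h2
    have heS : e ∈ S := he ▸ hB.mem _ hy0 hy1
    have ht : STA_t β F dg (n + 1) = β * STA_t β F dg n - e := by rw [he]; rfl
    have hι : ι (STA_t β F dg (n + 1)) = F^[n + 1] 1 := by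
      rw [ht, map_sub, map_mul, h1, Function.iterate_succ_apply', hB.eq _ hy0 hy1, he]
    obtain ⟨hr1, hr2⟩ := hB.rb.rng _ hy0 hy1
    refine ⟨hι, ?_, ?_, ?_, ?_, ?_⟩
    · rw [hι, Function.iterate_succ_apply']
      exact hr2.le
    · rw [hι, Function.iterate_succ_apply']
      exact hr1
    · have h7 : (N : K) * STA_t β F dg (n + 1) = β * ((N : K) * STA_t β F dg n) - (N : K) * e := by
        rw [ht]; ring
      rw [h7]
      exact (hSF.int.mul h4).sub (hC.ni e heS)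
    · rw [ht, map_sub, map_mul, hSF.sig]
      have h7 := hC.se e heS
      have h8 := hC.sg
      have h9 : |(ι β)⁻¹ * σ (STA_t β F dg n) - σ e| ≤ (ι β)⁻¹ * |σ (STA_t β F dg n)| + |σ e| := by
        have := abs_sub ((ι β)⁻¹ * σ (STA_t β F dg n)) (σ e)
        rwa [abs_mul, abs_of_pos (inv_pos.2 hβ0)] at this
      have h10 : (ι β)⁻¹ * |σ (STA_t β F dg n)| ≤ (ι β)⁻¹ * (Sg + (ι β) ^ H) := by
        apply mul_le_mul_of_nonneg_left _ (inv_pos.2 hβ0).le
        have : 0 < (ι β) ^ H := by positivity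
        linarith
      linarith
    · rw [ht]
      have h7 := hnns (β * STA_t β F dg n) e
      have h8 := hnnm β (STA_t β F dg n) (fun j => by rw [hSF.val j, Circle.norm_coe])
      have h9 := hC.ne e heS
      push_cast
      linarith

end Pool.Agent.TS
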